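import Pool.Agent.Helper27.BI.S5.St5
import Pool.Agent.Helper27.BI.H.Calc

/-!
# Project BI, stage 5, module SHAT: a thin finger push shrunk by the factor `lam c s`
-/

set_option autoImplicit false

open scoped Manifold ContDiff Topology ComplexConjugate
open Set Filter Pool.Agent.Helper65.Barb Pool.Agent.Helper18.BI
open Pool.Agent.Helper70.BI (I4 LD NearEq)
open Pool.Agent.Helper27.BI (e1)
open Pool.Agent.Helper27.H

namespace Pool.Agent.Helper27.S5

namespace SHAT

theorem contDiff_lam (c : ℝ) : ContDiff ℝ ∞ (lam c) := by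
  have h1 : ContDiff ℝ ∞ (fun s : ℝ => step ((s - 7 / 20) / (2 / 25))) :=
    contDiff_step.comp ((contDiff_id.sub contDiff_const).div_const _)
  have h2 : ContDiff ℝ ∞ (fun s : ℝ => step ((13 / 20 - s) / (2 / 25))) :=
    contDiff_step.comp ((contDiff_const.sub contDiff_id).div_const _)
  exact contDiff_const.sub (contDiff_const.mul (h1.mul h2))

theorem lam_mem {c : ℝ} (hc : c ∈ Ioo (0 : ℝ) 1) (s : ℝ) : c ≤ lam c s ∧ lam c s ≤ 1 := by
  have h1 := step_mem ((s - 7 / 20) / (2 / 25))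
  have h2 := step_mem ((13 / 20 - s) / (2 / 25))
  have h3 : 0 ≤ step ((s - 7 / 20) / (2 / 25)) * step ((13 / 20 - s) / (2 / 25)) :=
    mul_nonneg h1.1 h2.1
  have h4 : step ((s - 7 / 20) / (2 / 25)) * step ((13 / 20 - s) / (2 / 25)) ≤ 1 :=
    mul_le_one₀ h1.2 h2.1 h2.2
  obtain ⟨hc0, hc1⟩ := hc
  unfold lam
  constructor <;> nlinarith

theorem lam_out (c : ℝ) {s : ℝ} (h : s ≤ 7 / 20 ∨ 13 / 20 ≤ s) : lam c s = 1 := by
  unfold lam
  rcases h with h | h
  · rw [step_of_nonpos (s := (s - 7 / 20) / (2 / 25))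
      (div_nonpos_of_nonpos_of_nonneg (by linarith) (by norm_num))]
    ring
  · rw [step_of_nonpos (s := (13 / 20 - s) / (2 / 25))
      (div_nonpos_of_nonpos_of_nonneg (by linarith) (by norm_num))]
    ring

/-- the germs -/
noncomputable def Jg (c w : ℝ) (p : R4) : R4 :=
  (p.1, e1 + (1 - w + w * lam c p.1) • (p.2 - e1))

/-- the inverses of the germs -/
noncomputable def Jgi (c w : ℝ) (p : R4) : R4 :=
  (p.1, e1 + (1 - w + w * lam c p.1)⁻¹ • (p.2 - e1))

theorem contDiff_J2 (c : ℝ) :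
    ContDiff ℝ ∞ (fun z : (ℝ × ℝ) × R4 => Jg c z.1.2 z.2) := by
  have hw : ContDiff ℝ ∞ (fun z : (ℝ × ℝ) × R4 => z.1.2) := contDiff_snd.comp contDiff_fst
  have hs : ContDiff ℝ ∞ (fun z : (ℝ × ℝ) × R4 => z.2.1) := contDiff_fst.comp contDiff_snd
  have hx : ContDiff ℝ ∞ (fun z : (ℝ × ℝ) × R4 => z.2.2) := contDiff_snd.comp contDiff_snd
  have hl : ContDiff ℝ ∞ (fun z : (ℝ × ℝ) × R4 => lam c z.2.1) := (contDiff_lam c).comp hs
  exact hs.prodMk (contDiff_const.add
    (((contDiff_const.sub hw).add (hw.mul hl)).smul (hx.sub contDiff_const)))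

theorem contDiff_J (c w : ℝ) : ContDiff ℝ ∞ (Jg c w) := by
  have h := (contDiff_J2 c).comp (f := fun p : R4 => (((0 : ℝ), w), p))
    (contDiff_const.prodMk contDiff_id)
  exact h

theorem fac_pos {c : ℝ} (hc : c ∈ Ioo (0 : ℝ) 1) {w : ℝ} (hw : w ∈ Icc (0 : ℝ) 1) (s : ℝ) :
    0 < 1 - w + w * lam c s := by
  have h1 := lam_mem hc s
  obtain ⟨hw0, hw1⟩ := hw
  have hc0 := hc.1
  nlinarith

theorem fac_le {c : ℝ} (hc : c ∈ Ioo (0 : ℝ) 1) {w : ℝ} (hw : w ∈ Icc (0 : ℝ) 1) (s : ℝ) :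
    1 - w + w * lam c s ≤ 1 := by
  have h1 := lam_mem hc s
  obtain ⟨hw0, hw1⟩ := hw
  nlinarith

theorem contDiff_Ji {c : ℝ} (hc : c ∈ Ioo (0 : ℝ) 1) {w : ℝ} (hw : w ∈ Icc (0 : ℝ) 1) :
    ContDiff ℝ ∞ (Jgi c w) := by
  have hs : ContDiff ℝ ∞ (fun z : R4 => z.1) := contDiff_fst
  have hx : ContDiff ℝ ∞ (fun z : R4 => z.2) := contDiff_snd
  have hl : ContDiff ℝ ∞ (fun z : R4 => lam c z.1) := (contDiff_lam c).comp hs
  have hm : ContDiff ℝ ∞ (fun z : R4 => (1 - w + w * lam c z.1)⁻¹) :=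
    (contDiff_const.add (contDiff_const.mul hl)).inv (fun z => (fac_pos hc hw z.1).ne')
  exact hs.prodMk (contDiff_const.add (hm.smul (hx.sub contDiff_const)))

theorem Ji_J {c : ℝ} (hc : c ∈ Ioo (0 : ℝ) 1) {w : ℝ} (hw : w ∈ Icc (0 : ℝ) 1) (p : R4) :
    Jgi c w (Jg c w p) = p := by
  have h := (fac_pos hc hw p.1).ne'
  unfold Jgi Jg
  simp only [add_sub_cancel_left]
  rw [smul_smul, inv_mul_cancel₀ h, one_smul, add_sub_cancel]

theorem emb_J {c : ℝ} (hc : c ∈ Ioo (0 : ℝ) 1) {w : ℝ} (hw : w ∈ Icc (0 : ℝ) 1) (L : Set R4) :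
    EmbOn I4 (Jg c w) L := by
  rw [Pool.Agent.Helper70.BI.embOn_iff]
  refine ⟨fun p _ => ⟨Eventually.of_forall fun q => (contDiff_J c w).contDiffAt, ?_⟩, ?_⟩
  · have h1 : DifferentiableAt ℝ (Jg c w) p :=
      (contDiff_J c w).contDiffAt.differentiableAt (by simp)
    have h2 : DifferentiableAt ℝ (Jgi c w) (Jg c w p) :=
      (contDiff_Ji hc hw).contDiffAt.differentiableAt (by simp)
    have h3 := fderiv_comp p h2 h1
    have h4 : Jgi c w ∘ Jg c w = id := funext fun q => Ji_J hc hw q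
    rw [h4, fderiv_id] at h3
    intro x y hxy
    have h5 : (ContinuousLinearMap.id ℝ R4) x = (ContinuousLinearMap.id ℝ R4) y := by
      rw [h3, ContinuousLinearMap.comp_apply, ContinuousLinearMap.comp_apply, hxy]
    exact h5
  · intro p _ q _ hpq
    rw [← Ji_J hc hw p, ← Ji_J hc hw q, hpq]

/-- the tube around the line over `e1` -/
def Lt : Set R4 := {p | 3 / 10 ≤ p.1 ∧ p.1 ≤ 7 / 10 ∧ nsq (p.2 - e1) ≤ (1 / 200) ^ 2}

/-- the open tube which contains the support -/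
def Ut : Set R4 := {p | 3 / 10 < p.1 ∧ p.1 < 7 / 10 ∧ nsq (p.2 - e1) < (1 / 100) ^ 2}

/-- the frozen part -/
def Vt : Set R4 := {p | p.1 < 7 / 20 ∨ 13 / 20 < p.1}

theorem continuous_nsq : Continuous nsq := by
  unfold nsq
  fun_prop

theorem continuous_d : Continuous (fun p : R4 => nsq (p.2 - e1)) :=
  continuous_nsq.comp (continuous_snd.sub continuous_const)

theorem norm_le {y : R3} (h : nsq y ≤ 1) : ‖y‖ ≤ 1 := by
  have h1 : y.1 ^ 2 ≤ 1 := by
    unfold nsq at h
    nlinarith [sq_nonneg y.2.re, sq_nonneg y.2.im]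
  have h2 : ‖y.2‖ ^ 2 ≤ 1 := by
    rw [Complex.sq_norm, Complex.normSq_apply]
    unfold nsq at h
    nlinarith [sq_nonneg y.1]
  rw [Prod.norm_def, sup_le_iff]
  constructor
  · rw [Real.norm_eq_abs]
    exact abs_le_one_iff_mul_self_le_one.mpr (by nlinarith)
  · nlinarith [norm_nonneg y.2]

theorem isCompact_Lt : IsCompact Lt := by
  have hcl : IsClosed Lt := by
    have h1 : IsClosed {p : R4 | 3 / 10 ≤ p.1} := isClosed_le continuous_const continuous_fst
    have h2 : IsClosed {p : R4 | p.1 ≤ 7 / 10} := isClosed_le continuous_fst continuous_const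
    have h3 : IsClosed {p : R4 | nsq (p.2 - e1) ≤ (1 / 200) ^ 2} :=
      isClosed_le continuous_d continuous_const
    exact h1.inter (h2.inter h3)
  refine (isCompact_Icc.prod (isCompact_closedBall e1 1)).of_isClosed_subset hcl
    (s := (Icc (3 / 10 : ℝ) (7 / 10)) ×ˢ Metric.closedBall e1 1) ?_
  rintro p ⟨h1, h2, h3⟩
  refine ⟨⟨h1, h2⟩, ?_⟩
  rw [Metric.mem_closedBall, dist_eq_norm]
  exact norm_le (h3.trans (by norm_num))

theorem isOpen_Ut : IsOpen Ut := by
  have h1 : IsOpen {p : R4 | 3 / 10 < p.1} := isOpen_lt continuous_const continuous_fst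
  have h2 : IsOpen {p : R4 | p.1 < 7 / 10} := isOpen_lt continuous_fst continuous_const
  have h3 : IsOpen {p : R4 | nsq (p.2 - e1) < (1 / 100) ^ 2} :=
    isOpen_lt continuous_d continuous_const
  exact h1.inter (h2.inter h3)

theorem isOpen_Vt : IsOpen Vt := by
  have h1 : IsOpen {p : R4 | p.1 < 7 / 20} := isOpen_lt continuous_fst continuous_const
  have h2 : IsOpen {p : R4 | 13 / 20 < p.1} := isOpen_lt continuous_const continuous_fst
  exact h1.union h2

theorem nsq_smul_le {m r : ℝ} {y : R3} (hm0 : 0 ≤ m) (hm1 : m ≤ 1) (h : nsq y ≤ r) :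
    nsq (m • y) ≤ r := by
  have h0 : 0 ≤ nsq y := by unfold nsq; positivity
  have h1 : nsq (m • y) = m ^ 2 * nsq y := by
    unfold nsq
    simp only [Prod.smul_fst, Prod.smul_snd, smul_eq_mul, Complex.real_smul, Complex.mul_re,
      Complex.mul_im, Complex.ofReal_re, Complex.ofReal_im]
    ring
  rw [h1]
  have h2 : m ^ 2 ≤ 1 := by nlinarith
  nlinarith

theorem fam {c : ℝ} (hc : c ∈ Ioo (0 : ℝ) 1) : Fam2 Q2 Lt Vt Ut (fun a => Jg c a.2) where
  smooth a _ p _ := Eventually.of_forall fun _ => (contDiff_J2 c).contDiffAt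
  emb a ha := emb_J hc ha.2 Lt
  froz a _ b _ p hp := by
    have hl : lam c p.1 = 1 := by
      rcases hp with h | h
      · exact lam_out c (Or.inl h.le)
      · exact lam_out c (Or.inr h.le)
    unfold Jg
    rw [hl]
    congr 3
    ring
  inU a ha p hp hpV := by
    have h1 : ¬ p.1 < 7 / 20 := fun h => hpV (Or.inl h)
    have h2 : ¬ 13 / 20 < p.1 := fun h => hpV (Or.inr h)
    push Not at h1 h2
    refine ⟨?_, ?_, ?_⟩
    · change 3 / 10 < p.1
      linarith
    · change p.1 < 7 / 10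
      linarith
    · change nsq (e1 + (1 - a.2 + a.2 * lam c p.1) • (p.2 - e1) - e1) < (1 / 100) ^ 2
      rw [add_sub_cancel_left]
      refine lt_of_le_of_lt (nsq_smul_le (fac_pos hc ha.2 p.1).le (fac_le hc ha.2 p.1) hp.2.2) ?_
      norm_num

end SHAT

open SHAT in
/-- **SHAT.** -/
theorem m_SHAT (hCh : StCH4) : StSHAT := by
  intro T T' hT c hc
  obtain ⟨Θ, F, f0, f1, ⟨K, hK, hKU, hs⟩, N, hN, hLN, ht⟩ :=
    exists_lpush1 hCh isCompact_Lt isOpen_Vt isOpen_Ut (J := fun w => Jg c w) (fam hc)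
  have hT0 := hT.ok
  have hsm : ContDiff ℝ ∞ (fun x : R4 => F.f (1, x)) :=
    contMDiff_iff_contDiff.1 (F.smooth_f.comp (contMDiff_const.prodMk contMDiff_id))
  have hsm' : ContDiff ℝ ∞ (fun x : R4 => F.g (1, x)) :=
    contMDiff_iff_contDiff.1 (F.smooth_g.comp (contMDiff_const.prodMk contMDiff_id))
  have hid : ∀ p : R4, p ∉ Ut → F.f (1, p) = p := fun p hp => hs 1 p fun h => hp (hKU h)
  have hJ0 : ∀ p : R4, Jg c 0 p = p := by
    intro p
    unfold Jg
    rw [zero_mul, add_zero, sub_zero, one_smul, add_sub_cancel]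
  have hin : ∀ p ∈ Lt, F.f (1, p) = (p.1, e1 + lam c p.1 • (p.2 - e1)) := by
    intro p hp
    have h := ht 1 (by simp) p (hLN hp)
    rw [Pool.Agent.Helper27.BI.step_one] at h
    change F.f (1, Jg c 0 p) = Jg c 1 p at h
    rw [hJ0] at h
    rw [h]
    unfold Jg
    rw [sub_self, zero_add, one_mul]
  refine ⟨fun x => T (F.f (1, x)), fun x => F.g (1, T' x), ?_, ?_, ?_, ?_, ?_, ?_, ?_⟩
  · exact hT0.smooth.comp hsm
  · exact hsm'.comp hT0.smooth'
  · intro x
    rw [hT0.left, F.gf]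
  · intro x
    rw [F.fg, hT0.right]
  · intro s y hy
    by_cases h : 3 / 10 ≤ s ∧ s ≤ 7 / 10
    · have hmem : ((s, e1 + y) : R4) ∈ Lt := by
        refine ⟨h.1, h.2, ?_⟩
        change nsq (e1 + y - e1) ≤ (1 / 200) ^ 2
        rw [add_sub_cancel_left]
        exact hy
      rw [hin _ hmem]
      simp only [add_sub_cancel_left]
      apply hT0.tube
      refine nsq_smul_le (hc.1.le.trans (lam_mem hc s).1) (lam_mem hc s).2 (hy.trans ?_)
      norm_num
    · have hnot : ((s, e1 + y) : R4) ∉ Ut := fun h' => h ⟨h'.1.le, h'.2.1.le⟩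
      have hl : lam c s = 1 := by
        apply lam_out
        by_contra h'
        push Not at h'
        exact h ⟨by linarith [h'.1], by linarith [h'.2]⟩
      rw [hid _ hnot, hl, one_smul]
      apply hT0.tube
      exact hy.trans (by norm_num)
  · intro s x hx
    have h0 := hx 0 (by simp)
    rw [zero_mul, sub_zero, one_smul] at h0
    have hnot : ((s, x) : R4) ∉ Ut := by
      rintro ⟨-, -, h⟩
      change nsq (x - e1) < (1 / 100) ^ 2 at h
      linarith [show ((1 : ℝ) / 100) ^ 2 < (1 / 50) ^ 2 by norm_num]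
    rw [hid _ hnot]
    exact hT.thin s x hx
  · intro s x hs'
    have hnot : ((s, x) : R4) ∉ Ut := by
      rintro ⟨h1, h2, -⟩
      change 3 / 10 < s at h1
      change s < 7 / 10 at h2
      rcases hs' with h | h <;> linarith
    rw [hid _ hnot]
    exact hT0.out s x hs'

end Pool.Agent.Helper27.S5
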